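import Pool.Agent.H.MP_b2d7dd_lc.TE.Main
import Pool.Agent.H.MP_b2d7dd_lc.TE.Mem

/-!
# MP_b2d7dd_lc: the equational theory of high-school arithmetic and its closed part

The equational theory of `N_HS` is reducible in randomised polynomial time, with one-sided error,
to its variable-free part; the same holds for terms of bounded height. Hence the theory is in coRP
if and only if its closed part is.
-/

namespace Pool.Agent.Results.MP_b2d7dd_lc.ClosedPart

open Pool.Agent.TI Pool.Agent.TE

/-- The equational theory of `N_HS` reduces to its closed part, also for terms of height at most
`h`, and the theory is in coRP if and only if its closed part is. -/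
theorem result :
    RandReduces identities closedIdentities ∧
      (∀ h : ℕ, RandReduces (identitiesH h) (closedIdentitiesH h)) ∧
      (CoRP identities ↔ CoRP closedIdentities) :=
  ⟨reduces_closed, reduces_closedH, corp_iff⟩

end Pool.Agent.Results.MP_b2d7dd_lc.ClosedPart
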