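import Pool.Agent.H.MP_b2d7dd_lc.TE.MainE
import Pool.Agent.H.MP_b2d7dd_lc.TE.Mem

/-!
# MP_b2d7dd_lc: the identities of height one of high-school arithmetic are in coRP

The equational theory of `N_HS`, restricted to identities whose exponents contain no
exponentiation (the bases are arbitrary), is decidable in randomised polynomial time with
one-sided error.
-/

namespace Pool.Agent.Results.MP_b2d7dd_lc.HeightOne

open Pool.Agent.TI Pool.Agent.TE

/-- The string of an identity `s = t` is in the set `identitiesH 1` if and only if `s` and `t` have
height at most one and `s = t` holds in `N_HS`, and this set is in coRP. -/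
theorem result :
    (∀ s t : Tm, s.code ++ t.code ∈ identitiesH 1 ↔ ht s ≤ 1 ∧ ht t ≤ 1 ∧ Valid s t) ∧
      CoRP (identitiesH 1) :=
  ⟨mem_identitiesH_iff 1, corp_one⟩

end Pool.Agent.Results.MP_b2d7dd_lc.HeightOne
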