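import Pool.Agent.H.MP_b2d7dd_lc.TV.Main

/-!
# MP_b2d7dd_lc: the identities of polynomial weight are in coRP

The equational theory of `N_HS`, restricted to identities in which the constants in the exponents of
sums inside of exponents, and inside of sums in bases, are small (towers of any height, sums in the bases
and arbitrary constants elsewhere are allowed), is decidable in randomised polynomial time with
one-sided error.
-/

namespace Pool.Agent.Results.MP_b2d7dd_lc.SmallConstants

open Pool.Agent.TI Pool.Agent.TV

/-- For every `k` the set `identitiesG k` is in coRP. The string `x` of an identity `s = t` is in this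
set if and only if `s = t` holds in `N_HS` and the sum of the weights of `s` and `t` (in mode `0`) is at
most `(length of x) ^ k`. For terms with `SimG` (in mode `0`) the string is in the set `identitiesG 1` if
and only if the identity holds. -/
theorem result :
    (∀ k : ℕ, CoRP (identitiesG k)) ∧
      (∀ (k : ℕ) (s t : Tm), s.code ++ t.code ∈ identitiesG k ↔
        Valid s t ∧ wg s 0 + wg t 0 ≤ (s.code ++ t.code).length ^ k) ∧
      ∀ s t : Tm, SimG s 0 → SimG t 0 → (s.code ++ t.code ∈ identitiesG 1 ↔ Valid s t) :=
  ⟨corp_G, mem_identitiesG_iff, fun s t hs ht =>
    (mem_identitiesG_iff 1 s t).trans (and_iff_left (simG_code hs ht))⟩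

end Pool.Agent.Results.MP_b2d7dd_lc.SmallConstants
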