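import Pool.Agent.H.MP_b2d7dd_lc.TE.Small

/-!
# MP_b2d7dd_lc: small counterexamples to identities of high-school arithmetic

An identity which does not hold in `N_HS` fails for some positive integers with polynomially many
binary digits.
-/

namespace Pool.Agent.Results.MP_b2d7dd_lc.SmallCounterexamples

open Pool.Agent.TI

/-- If the identity `s = t` does not hold in `N_HS`, then it fails at some assignment of positive
integers at most `2 ^ (50 (n + 1) ^ 3) + 1`, `n` being the number of symbols of `s` and `t`. -/
theorem result {s t : Tm} (h : ¬ Valid s t) :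
    ∃ x : List Bool → ℕ, (∀ w, 0 < x w ∧ x w ≤ 2 ^ (50 * (s.sz + t.sz + 1) ^ 3) + 1) ∧
      s.val x ≠ t.val x :=
  Pool.Agent.TE.small_counterexample h

end Pool.Agent.Results.MP_b2d7dd_lc.SmallCounterexamples
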